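import Pool.Agent.TH643.FQ.Main
import Pool.Agent.H774R3.ScM

set_option autoImplicit false
open Set Topology Filter Module
open Pool.Agent.H774R3 (sc_prod sc_pi sc_ioi)

namespace Pool.Agent.TH643.FQ

theorem sc_punctured3 : SimplyConnectedSpace {z : ℝ × ℂ // z ≠ 0} := by
  have h1 : SimplyConnectedSpace (Metric.sphere (0 : EuclideanSpace ℝ (Fin 3)) 1) :=
    Pool.Agent.Helper206.BoxS.Sph.simplyConnected_sphere (by simp)
  have h2 := sc_ioi
  have h3 := sc_prod (Metric.sphere (0 : EuclideanSpace ℝ (Fin 3)) 1) (Set.Ioi (0 : ℝ))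
  have h4 : SimplyConnectedSpace ({0}ᶜ : Set (EuclideanSpace ℝ (Fin 3))) :=
    (homeomorphUnitSphereProd (EuclideanSpace ℝ (Fin 3))).toHomotopyEquiv.simplyConnectedSpace
  have hfr : finrank ℝ (ℝ × ℂ) = finrank ℝ (EuclideanSpace ℝ (Fin 3)) := by
    rw [Module.finrank_prod]
    simp [Complex.finrank_real_complex]
  let e : (ℝ × ℂ) ≃L[ℝ] (EuclideanSpace ℝ (Fin 3)) := ContinuousLinearEquiv.ofFinrankEq hfr
  let e' : {z : ℝ × ℂ // z ≠ 0} ≃ₜ ({0}ᶜ : Set (EuclideanSpace ℝ (Fin 3))) :=
    e.toHomeomorph.subtype (fun z => by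
      simp)
  exact e'.toHomotopyEquiv.simplyConnectedSpace

theorem sc_NN : SimplyConnectedSpace NN := by
  have h1 := sc_punctured3
  have h2 := sc_pi (fun _ : Fin 3 => {z : ℝ × ℂ // z ≠ 0})
  let e : NN ≃ₜ (Fin 3 → {z : ℝ × ℂ // z ≠ 0}) :=
    { toFun := fun x i => ⟨x.1 i, x.2 i⟩
      invFun := fun x => ⟨fun i => (x i).1, fun i => (x i).2⟩
      left_inv := fun x => rfl
      right_inv := fun x => rfl
      continuous_toFun := by
        refine continuous_pi fun i => ?_
        exact Continuous.subtype_mk ((continuous_apply i).comp continuous_subtype_val) _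
      continuous_invFun := by
        refine Continuous.subtype_mk ?_ _
        refine continuous_pi fun i => ?_
        exact continuous_subtype_val.comp (continuous_apply i) }
  exact e.toHomotopyEquiv.simplyConnectedSpace

theorem finrank_pow3 : finrank ℝ (EuclideanSpace ℝ (Fin 9)) = finrank ℝ (Fin 3 → ℝ × ℂ) := by
  rw [Module.finrank_pi_fintype]
  simp only [Module.finrank_prod, Complex.finrank_real_complex, finrank_euclideanSpace_fin]
  simp

/-- linear coordinates on the product of three copies of `ℝ³` -/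
noncomputable def coord : EuclideanSpace ℝ (Fin 9) ≃L[ℝ] (Fin 3 → ℝ × ℂ) :=
  ContinuousLinearEquiv.ofFinrankEq finrank_pow3

/-- the product of three copies of `ℝ³` minus the origin, as an open subset of `ℝ⁹` -/
noncomputable def QQ : TopologicalSpace.Opens (EuclideanSpace ℝ (Fin 9)) :=
  ⟨{v | ∀ i, coord v i ≠ 0}, by
    have : {v | ∀ i, coord v i ≠ 0} = ⋂ i : Fin 3, {v | coord v i ≠ 0} := by
      ext v
      simp
    rw [this]
    exact isOpen_iInter_of_finite fun i => isOpen_ne.preimage
      ((continuous_apply i).comp coord.continuous)⟩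

/-- the space as a product -/
noncomputable def QQhomeo : QQ ≃ₜ NN :=
  coord.toHomeomorph.subtype (fun _ => Iff.rfl)

theorem sc_QQ : SimplyConnectedSpace QQ := by
  have := sc_NN
  exact QQhomeo.toHomotopyEquiv.simplyConnectedSpace

end Pool.Agent.TH643.FQ
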