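import Mathlib

set_option autoImplicit false
open Set Topology Filter

namespace Pool.Agent.TH643.FQ

/-- A continuous real flow `φ` on `Y` with open continuous quotient map `f`, whose fibres are the
orbits. No local sections are assumed. -/
structure GFlow {Y N : Type*} [TopologicalSpace Y] [TopologicalSpace N] (φ : ℝ → Y → Y)
    (f : Y → N) : Prop where
  cont : Continuous (fun p : ℝ × Y => φ p.1 p.2)
  zero : ∀ y, φ 0 y = y
  add : ∀ s t y, φ (s + t) y = φ s (φ t y)
  fcont : Continuous f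
  fopen : IsOpenMap f
  fibre : ∀ x y, f x = f y ↔ ∃ t, φ t x = y

variable {Y N : Type*} [TopologicalSpace Y] [TopologicalSpace N] {φ : ℝ → Y → Y} {f : Y → N}

theorem GFlow.orbit_cont (h : GFlow φ f) (y : Y) : Continuous (fun t => φ t y) :=
  h.cont.comp (continuous_id.prodMk continuous_const)

theorem GFlow.time_cont (h : GFlow φ f) (t : ℝ) : Continuous (φ t) :=
  h.cont.comp (continuous_const.prodMk continuous_id)

theorem GFlow.f_flow (h : GFlow φ f) (t : ℝ) (y : Y) : f (φ t y) = f y :=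
  ((h.fibre y (φ t y)).2 ⟨t, rfl⟩).symm

theorem GFlow.fibre_eq (h : GFlow φ f) (y : Y) : f ⁻¹' {f y} = range (fun t => φ t y) := by
  ext z
  simp only [mem_preimage, mem_singleton_iff, mem_range]
  rw [eq_comm, h.fibre y z]

theorem GFlow.neg_add (h : GFlow φ f) (t : ℝ) (y : Y) : φ (-t) (φ t y) = y := by
  rw [← h.add, neg_add_cancel, h.zero]

theorem GFlow.conn (h : GFlow φ f) (n : N) : IsPreconnected (f ⁻¹' {n}) := by
  by_cases hn : ∃ y, f y = n
  · obtain ⟨y, rfl⟩ := hn
    rw [h.fibre_eq]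
    exact isPreconnected_range (h.orbit_cont y)
  · have : f ⁻¹' {n} = ∅ := by
      ext z
      simp only [mem_preimage, mem_singleton_iff, mem_empty_iff_false, iff_false]
      exact fun hz => hn ⟨z, hz⟩
    rw [this]
    exact isPreconnected_empty

/-- compact orbits are stable -/
theorem GFlow.stable [T2Space Y] [LocallyCompactSpace Y] [T2Space N] (h : GFlow φ f) {y0 : Y}
    (hc : IsCompact (f ⁻¹' {f y0})) {O : Set Y} (hO : IsOpen O) (hsub : f ⁻¹' {f y0} ⊆ O) :
    ∃ L : Set Y, IsCompact L ∧ L ⊆ O ∧ ∀ᶠ n in 𝓝 (f y0), f ⁻¹' {n} ⊆ L := by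
  obtain ⟨L, hL, h1, h2⟩ := exists_compact_between hc hO hsub
  refine ⟨L, hL, h2, ?_⟩
  have hfr : IsCompact (frontier (interior L)) := by
    apply hL.of_isClosed_subset isClosed_frontier
    exact (frontier_subset_closure.trans (closure_mono interior_subset)).trans
      hL.isClosed.closure_subset
  have hcl : IsClosed (f '' frontier (interior L)) := (hfr.image h.fcont).isClosed
  have hnot : f y0 ∉ f '' frontier (interior L) := by
    rintro ⟨z, hz, hzf⟩
    have : z ∈ interior L := h1 hzf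
    have hfe := (isOpen_interior (s := L)).frontier_eq
    rw [hfe] at hz
    exact hz.2 this
  have e1 : ∀ᶠ n in 𝓝 (f y0), n ∉ f '' frontier (interior L) := hcl.isOpen_compl.mem_nhds hnot
  have e2 : ∀ᶠ n in 𝓝 (f y0), n ∈ f '' interior L :=
    (h.fopen _ isOpen_interior).mem_nhds ⟨y0, h1 rfl, rfl⟩
  filter_upwards [e1, e2] with n hn1 hn2
  obtain ⟨z, hz, rfl⟩ := hn2
  by_contra hcon
  obtain ⟨w, hw, hwL⟩ := not_subset.1 hcon
  have hfe := (isOpen_interior (s := L)).frontier_eq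
  have hcov : f ⁻¹' {f z} ⊆ interior L ∪ (closure (interior L))ᶜ := by
    intro v hv
    by_contra hv'
    simp only [mem_union, mem_compl_iff, not_or, not_not] at hv'
    exact hn1 ⟨v, by rw [hfe]; exact ⟨hv'.2, hv'.1⟩, hv⟩
  obtain ⟨v, -, hv1, hv2⟩ := h.conn (f z) _ _ isOpen_interior isClosed_closure.isOpen_compl hcov
    ⟨z, rfl, hz⟩ ⟨w, hw, fun hw' => hwL (by
      have : closure (interior L) ⊆ L := (closure_mono interior_subset).trans
        hL.isClosed.closure_subset
      exact this hw')⟩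
  exact hv2 (subset_closure hv1)

theorem GFlow.compact_nhds [T2Space Y] [LocallyCompactSpace Y] [T2Space N] (h : GFlow φ f) {y0 : Y}
    (hc : IsCompact (f ⁻¹' {f y0})) : ∀ᶠ n in 𝓝 (f y0), IsCompact (f ⁻¹' {n}) := by
  obtain ⟨L, hL, -, h2⟩ := h.stable hc isOpen_univ (subset_univ _)
  filter_upwards [h2] with n hn
  exact hL.of_isClosed_subset (isClosed_singleton.preimage h.fcont) hn

theorem GFlow.compact_of_periodic (h : GFlow φ f) {y : Y} {T : ℝ} (hT0 : T ≠ 0)
    (hT : φ T y = y) : IsCompact (f ⁻¹' {f y}) := by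
  have hT' : φ |T| y = y := by
    rcases le_total 0 T with h0 | h0
    · rwa [abs_of_nonneg h0]
    · rw [abs_of_nonpos h0]
      conv_lhs => rw [← hT]
      rw [← h.add, neg_add_cancel, h.zero]
  have hper : Function.Periodic (fun t => φ t y) |T| := by
    intro s
    simp only
    rw [h.add, hT']
  rw [h.fibre_eq]
  have : range (fun t => φ t y) = (fun t => φ t y) '' Icc 0 |T| := by
    apply Subset.antisymm
    · rintro _ ⟨t, rfl⟩
      obtain ⟨s, hs, hs'⟩ := hper.exists_mem_Ico₀ (abs_pos.2 hT0) t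
      exact ⟨s, ⟨hs.1, hs.2.le⟩, hs'.symm⟩
    · rintro _ ⟨t, -, rfl⟩
      exact ⟨t, rfl⟩
  rw [this]
  exact isCompact_Icc.image (h.orbit_cont y)

/-- A free orbit leaves every compact set. -/
theorem GFlow.proper [T2Space Y] [LocallyCompactSpace Y] [T2Space N] (h : GFlow φ f) {y : Y}
    (hfree : ∀ T, φ T y = y → T = 0) {M : Set Y} (hM : IsCompact M) :
    ∃ B : ℝ, ∀ t, φ t y ∈ M → |t| ≤ B := by
  by_contra hcon
  push Not at hcon
  have hinj : ∀ a b, φ a y = φ b y → a = b := by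
    intro a b hab
    have : φ (-b + a) y = y := by rw [h.add, hab, h.neg_add]
    have := hfree _ this
    linarith
  choose t ht hBt using fun k : ℕ => hcon k
  -- the orbit as a subspace
  have hcl : IsClosed (f ⁻¹' {f y}) := isClosed_singleton.preimage h.fcont
  have : LocallyCompactSpace (f ⁻¹' {f y}) := hcl.isClosedEmbedding_subtypeVal.locallyCompactSpace
  have hmem : ∀ s, φ s y ∈ f ⁻¹' {f y} := fun s => h.f_flow s y
  let o : ℝ → (f ⁻¹' {f y}) := fun s => ⟨φ s y, hmem s⟩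
  have hoc : Continuous o := (h.orbit_cont y).subtype_mk _
  let A : ℤ → Set (f ⁻¹' {f y}) := fun n => o '' Icc (n : ℝ) (n + 1)
  have hAcl : ∀ n, IsClosed (A n) := fun n => (isCompact_Icc.image hoc).isClosed
  have hAun : ⋃ n, A n = univ := by
    apply eq_univ_of_forall
    rintro ⟨z, hz⟩
    obtain ⟨s, rfl⟩ := (h.fibre y z).1 (Eq.symm hz)
    exact mem_iUnion.2 ⟨⌊s⌋, s, ⟨Int.floor_le s, (Int.lt_floor_add_one s).le⟩, rfl⟩
  have : Nonempty (f ⁻¹' {f y}) := ⟨o 0⟩
  obtain ⟨n, hn⟩ := nonempty_interior_of_iUnion_of_closed hAcl hAun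
  obtain ⟨⟨z, hz⟩, hzi⟩ := hn
  obtain ⟨t1, ht1⟩ := (h.fibre y z).1 (Eq.symm hz)
  -- a cluster point of the visits to `M`
  have hMc : IsCompact (M ∩ f ⁻¹' {f y}) := hM.inter_right hcl
  obtain ⟨w, hw, hclu⟩ := hMc (f := map (fun k : ℕ => φ (t k) y) atTop)
    (by rw [Filter.le_principal_iff]; exact Filter.mem_map.2
          (Filter.Eventually.of_forall fun k => ⟨ht k, hmem _⟩))
  obtain ⟨τ, hτ⟩ := (h.fibre y w).1 (Eq.symm hw.2)
  -- the open set
  obtain ⟨O, hO, hOi⟩ := isOpen_induced_iff.1 (isOpen_interior (s := A n))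
  have hzO : z ∈ O := by
    have : (⟨z, hz⟩ : f ⁻¹' {f y}) ∈ Subtype.val ⁻¹' O := by rw [hOi]; exact hzi
    exact this
  have hwO : φ (t1 - τ) w ∈ O := by
    rw [← hτ, ← h.add, sub_add_cancel, ht1]
    exact hzO
  have hfreq : ∃ᶠ k in atTop, φ (t (k : ℕ)) y ∈ φ (t1 - τ) ⁻¹' O :=
    MapClusterPt.frequently hclu ((h.time_cont _).continuousAt.preimage_mem_nhds (hO.mem_nhds hwO))
  obtain ⟨B, hB⟩ := exists_nat_gt (|(n : ℝ)| + |(n : ℝ) + 1| + |t1 - τ|)
  obtain ⟨k, hk, hkO⟩ := (Filter.frequently_atTop.1 hfreq) B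
  have h1 : (⟨φ (t1 - τ) (φ (t k) y), by
      change f _ = f y
      rw [h.f_flow, h.f_flow]⟩ : f ⁻¹' {f y}) ∈ interior (A n) := by
    rw [← hOi]
    exact hkO
  obtain ⟨s, hs, hse⟩ := interior_subset h1
  have hse' : φ s y = φ (t1 - τ + t k) y := by
    rw [h.add]
    exact congrArg Subtype.val hse
  have hst := hinj _ _ hse'
  have h2 : (k : ℝ) < |t k| := hBt k
  have h3 : (B : ℝ) ≤ k := by exact_mod_cast hk
  have h4 : |t k| ≤ |s| + |t1 - τ| := by
    have : t k = s - (t1 - τ) := by linarith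
    rw [this]
    exact abs_sub _ _
  have h5 : |s| ≤ |(n : ℝ)| + |(n : ℝ) + 1| := by
    rw [abs_le]
    have a1 := neg_abs_le (n : ℝ)
    have a2 := le_abs_self ((n : ℝ) + 1)
    have a3 := abs_nonneg (n : ℝ)
    have a4 := abs_nonneg ((n : ℝ) + 1)
    constructor <;> linarith [hs.1, hs.2]
  linarith

theorem GFlow.periodic [T2Space Y] [LocallyCompactSpace Y] [T2Space N] (h : GFlow φ f) {y : Y}
    (hc : IsCompact (f ⁻¹' {f y})) : ∃ T > 0, φ T y = y := by
  by_contra hcon
  push Not at hcon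
  have hfree : ∀ T, φ T y = y → T = 0 := by
    intro T hT
    by_contra hT0
    rcases lt_or_gt_of_ne hT0 with h0 | h0
    · apply hcon (-T) (by linarith)
      conv_lhs => rw [← hT]
      rw [h.neg_add]
    · exact hcon T h0 hT
  obtain ⟨B, hB⟩ := h.proper hfree hc
  have := hB (|B| + 1) (h.f_flow _ _)
  rw [abs_of_nonneg (by positivity)] at this
  linarith [le_abs_self B]

end Pool.Agent.TH643.FQ
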