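import Mathlib

set_option autoImplicit false
open Set Topology Filter
open scoped ComplexConjugate

namespace Pool.Agent.TH643.FQ

/-- the Hopf map `(z, w) ↦ (|z|² - |w|², 2 z w̄)` -/
noncomputable def hopf (p : ℂ × ℂ) : ℝ × ℂ :=
  (Complex.normSq p.1 - Complex.normSq p.2, 2 * (p.1 * conj p.2))

theorem hopf_cont : Continuous hopf := by
  unfold hopf
  have := Complex.continuous_normSq
  fun_prop

/-- the squared length of a vector of `ℝ × ℂ` -/
noncomputable def sq3 (v : ℝ × ℂ) : ℝ := v.1 ^ 2 + Complex.normSq v.2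

/-- the squared length of a spinor -/
noncomputable def sq2 (p : ℂ × ℂ) : ℝ := Complex.normSq p.1 + Complex.normSq p.2

theorem sq3_hopf (p : ℂ × ℂ) : sq3 (hopf p) = sq2 p ^ 2 := by
  unfold sq3 hopf sq2
  simp only [Complex.normSq_apply, Complex.mul_re, Complex.mul_im, Complex.conj_re,
    Complex.conj_im, Complex.re_ofNat, Complex.im_ofNat]
  ring

/-- the length of a vector of `ℝ × ℂ` -/
noncomputable def len (v : ℝ × ℂ) : ℝ := Real.sqrt (sq3 v)

/-- the inner product of `ℝ × ℂ` -/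
noncomputable def dot3 (v v' : ℝ × ℂ) : ℝ := v.1 * v'.1 + (v.2.re * v'.2.re + v.2.im * v'.2.im)

theorem sq3_nonneg (v : ℝ × ℂ) : 0 ≤ sq3 v := add_nonneg (sq_nonneg _) (Complex.normSq_nonneg _)

theorem sq2_nonneg (p : ℂ × ℂ) : 0 ≤ sq2 p :=
  add_nonneg (Complex.normSq_nonneg _) (Complex.normSq_nonneg _)

theorem sq3_eq_zero {v : ℝ × ℂ} (h : sq3 v = 0) : v = 0 := by
  unfold sq3 at h
  have h1 := sq_nonneg v.1
  have h2 := Complex.normSq_nonneg v.2
  have h3 : v.1 ^ 2 = 0 := by linarith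
  have h4 : Complex.normSq v.2 = 0 := by linarith
  exact Prod.ext (by simpa using h3) (Complex.normSq_eq_zero.1 h4)

theorem sq2_eq_zero {p : ℂ × ℂ} (h : sq2 p = 0) : p = 0 := by
  unfold sq2 at h
  have h1 := Complex.normSq_nonneg p.1
  have h2 := Complex.normSq_nonneg p.2
  exact Prod.ext (Complex.normSq_eq_zero.1 (by linarith)) (Complex.normSq_eq_zero.1 (by linarith))

theorem sq3_cont : Continuous sq3 := by
  unfold sq3
  have := Complex.continuous_normSq
  fun_prop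

theorem sq2_cont : Continuous sq2 := by
  unfold sq2
  have := Complex.continuous_normSq
  fun_prop

theorem len_cont : Continuous len := Real.continuous_sqrt.comp sq3_cont

theorem len_hopf (p : ℂ × ℂ) : len (hopf p) = sq2 p := by
  rw [len, sq3_hopf, Real.sqrt_sq (sq2_nonneg p)]

theorem len_sq (v : ℝ × ℂ) : len v ^ 2 = sq3 v := Real.sq_sqrt (sq3_nonneg v)

theorem len_nonneg (v : ℝ × ℂ) : 0 ≤ len v := Real.sqrt_nonneg _

/-- twice `len v` times the projection of a spinor to the line of `v` -/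
noncomputable def proj (p : ℂ × ℂ) (v : ℝ × ℂ) : ℂ × ℂ :=
  ((len v : ℂ) * p.1 + ((v.1 : ℂ) * p.1 + v.2 * p.2),
    (len v : ℂ) * p.2 + (conj v.2 * p.1 - (v.1 : ℂ) * p.2))

theorem proj_cont : Continuous (fun x : (ℂ × ℂ) × (ℝ × ℂ) => proj x.1 x.2) := by
  unfold proj
  have := len_cont
  fun_prop

theorem len_sq' (v : ℝ × ℂ) : len v ^ 2 = v.1 ^ 2 + (v.2.re * v.2.re + v.2.im * v.2.im) := by
  rw [len_sq, sq3, Complex.normSq_apply]

/-- the projection lies over a positive multiple of `v` -/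
theorem hopf_proj (p : ℂ × ℂ) (v : ℝ × ℂ) :
    sq2 (proj p v) = 2 * len v * (len v * sq2 p + dot3 (hopf p) v) ∧
    len v * (hopf (proj p v)).1 = sq2 (proj p v) * v.1 ∧
    len v * (hopf (proj p v)).2.re = sq2 (proj p v) * v.2.re ∧
    len v * (hopf (proj p v)).2.im = sq2 (proj p v) * v.2.im := by
  have h := len_sq' v
  set r := len v with hr
  obtain ⟨⟨a, b⟩, ⟨c, d⟩⟩ := p
  obtain ⟨x, ⟨y, z⟩⟩ := v
  simp only at h
  refine ⟨?_, ?_, ?_, ?_⟩
  · simp only [proj, ← hr, hopf, sq2, dot3, Complex.normSq_apply, Complex.add_re, Complex.add_im,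
      Complex.sub_re, Complex.sub_im, Complex.mul_re, Complex.mul_im, Complex.conj_re,
      Complex.conj_im, Complex.ofReal_re, Complex.ofReal_im, Complex.re_ofNat, Complex.im_ofNat]
    linear_combination (-(a ^ 2 + b ^ 2 + c ^ 2 + d ^ 2)) * h
  · simp only [proj, ← hr, hopf, sq2, Complex.normSq_apply, Complex.add_re, Complex.add_im,
      Complex.sub_re, Complex.sub_im, Complex.mul_re, Complex.mul_im, Complex.conj_re,
      Complex.conj_im, Complex.ofReal_re, Complex.ofReal_im]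
    linear_combination ((r + x) * (a ^ 2 + b ^ 2) - (r - x) * (c ^ 2 + d ^ 2)) * h
  · simp only [proj, ← hr, hopf, sq2, Complex.normSq_apply, Complex.add_re, Complex.add_im,
      Complex.sub_re, Complex.sub_im, Complex.mul_re, Complex.mul_im, Complex.conj_re,
      Complex.conj_im, Complex.ofReal_re, Complex.ofReal_im, Complex.re_ofNat, Complex.im_ofNat]
    linear_combination (2 * r * (a * c + b * d) + y * (a ^ 2 + b ^ 2 + c ^ 2 + d ^ 2)) * h
  · simp only [proj, ← hr, hopf, sq2, Complex.normSq_apply, Complex.add_re, Complex.add_im,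
      Complex.sub_re, Complex.sub_im, Complex.mul_re, Complex.mul_im, Complex.conj_re,
      Complex.conj_im, Complex.ofReal_re, Complex.ofReal_im, Complex.re_ofNat, Complex.im_ofNat]
    linear_combination (2 * r * (b * c - a * d) + z * (a ^ 2 + b ^ 2 + c ^ 2 + d ^ 2)) * h

/-- the transport of a spinor to the fibre over `v` -/
noncomputable def tr (p : ℂ × ℂ) (v : ℝ × ℂ) : ℂ × ℂ :=
  (((Real.sqrt (len v / sq2 (proj p v)) : ℝ) : ℂ) * (proj p v).1,
    ((Real.sqrt (len v / sq2 (proj p v)) : ℝ) : ℂ) * (proj p v).2)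

theorem hopf_smul (c : ℝ) (p : ℂ × ℂ) :
    hopf ((c : ℂ) * p.1, (c : ℂ) * p.2) = (c ^ 2 * (hopf p).1, (c : ℂ) ^ 2 * (hopf p).2) := by
  unfold hopf
  simp only [Complex.normSq_ofReal, map_mul, Complex.conj_ofReal]
  refine Prod.ext ?_ ?_
  · simp only
    ring
  · simp only
    ring

/-- the condition under which the transport works -/
def Good (p : ℂ × ℂ) (v : ℝ × ℂ) : Prop := 0 < len v ∧ 0 < len v * sq2 p + dot3 (hopf p) v

theorem sq2_proj_pos {p : ℂ × ℂ} {v : ℝ × ℂ} (hg : Good p v) : 0 < sq2 (proj p v) := by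
  rw [(hopf_proj p v).1]
  exact mul_pos (mul_pos two_pos hg.1) hg.2

theorem hopf_tr {p : ℂ × ℂ} {v : ℝ × ℂ} (hg : Good p v) : hopf (tr p v) = v := by
  have hs := sq2_proj_pos hg
  obtain ⟨-, h1, h2, h3⟩ := hopf_proj p v
  have hl := hg.1
  have hq : (Real.sqrt (len v / sq2 (proj p v))) ^ 2 = len v / sq2 (proj p v) :=
    Real.sq_sqrt (div_nonneg hl.le hs.le)
  unfold tr
  rw [hopf_smul]
  have hq' : (((Real.sqrt (len v / sq2 (proj p v)) : ℝ) : ℂ)) ^ 2 =
      ((len v / sq2 (proj p v) : ℝ) : ℂ) := by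
    rw [← Complex.ofReal_pow, hq]
  rw [hq, hq']
  refine Prod.ext ?_ (Complex.ext ?_ ?_)
  · simp only
    rw [div_mul_eq_mul_div, div_eq_iff hs.ne', h1, mul_comm]
  · simp only [Complex.mul_re, Complex.ofReal_re, Complex.ofReal_im, zero_mul, sub_zero]
    rw [div_mul_eq_mul_div, div_eq_iff hs.ne', h2, mul_comm]
  · simp only [Complex.mul_im, Complex.ofReal_re, Complex.ofReal_im, zero_mul, add_zero]
    rw [div_mul_eq_mul_div, div_eq_iff hs.ne', h3, mul_comm]

theorem tr_contAt {p : ℂ × ℂ} {v : ℝ × ℂ} (hg : Good p v) :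
    ContinuousAt (fun x : (ℂ × ℂ) × (ℝ × ℂ) => tr x.1 x.2) (p, v) := by
  have hs := sq2_proj_pos hg
  have hp : ContinuousAt (fun x : (ℂ × ℂ) × (ℝ × ℂ) => proj x.1 x.2) (p, v) :=
    proj_cont.continuousAt
  have hl : ContinuousAt (fun x : (ℂ × ℂ) × (ℝ × ℂ) => len x.2) (p, v) :=
    (len_cont.comp continuous_snd).continuousAt
  have hq : ContinuousAt (fun x : (ℂ × ℂ) × (ℝ × ℂ) => sq2 (proj x.1 x.2)) (p, v) :=
    (sq2_cont.comp proj_cont).continuousAt
  have hr : ContinuousAt (fun x : (ℂ × ℂ) × (ℝ × ℂ) =>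
      ((Real.sqrt (len x.2 / sq2 (proj x.1 x.2)) : ℝ) : ℂ)) (p, v) :=
    (Complex.continuous_ofReal.comp Real.continuous_sqrt).continuousAt.comp
      (hl.div hq hs.ne')
  exact (hr.mul hp.fst).prodMk (hr.mul hp.snd)

theorem proj_hopf (p : ℂ × ℂ) :
    proj p (hopf p) = (((2 * sq2 p : ℝ) : ℂ) * p.1, ((2 * sq2 p : ℝ) : ℂ) * p.2) := by
  have hl := len_hopf p
  unfold proj
  rw [hl]
  obtain ⟨⟨a, b⟩, ⟨c, d⟩⟩ := p
  refine Prod.ext (Complex.ext ?_ ?_) (Complex.ext ?_ ?_) <;>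
  · simp only [hopf, sq2, Complex.normSq_apply, Complex.add_re, Complex.add_im,
      Complex.sub_re, Complex.sub_im, Complex.mul_re, Complex.mul_im, Complex.conj_re,
      Complex.conj_im, Complex.ofReal_re, Complex.ofReal_im, Complex.re_ofNat, Complex.im_ofNat]
    ring

theorem tr_self {p : ℂ × ℂ} (hp : p ≠ 0) : tr p (hopf p) = p := by
  have hs : 0 < sq2 p := lt_of_le_of_ne (sq2_nonneg p) fun h => hp (sq2_eq_zero h.symm)
  have h1 : sq2 (proj p (hopf p)) = (2 * sq2 p) ^ 2 * sq2 p := by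
    rw [proj_hopf]
    simp only [sq2, Complex.normSq_mul, Complex.normSq_ofReal]
    ring
  have h2 : Real.sqrt (len (hopf p) / sq2 (proj p (hopf p))) = (2 * sq2 p)⁻¹ := by
    rw [h1, len_hopf]
    have : sq2 p / ((2 * sq2 p) ^ 2 * sq2 p) = ((2 * sq2 p)⁻¹) ^ 2 := by
      field_simp
    rw [this, Real.sqrt_sq (by positivity)]
  unfold tr
  rw [h2, proj_hopf]
  have h3 : (((2 * sq2 p)⁻¹ : ℝ) : ℂ) * ((2 * sq2 p : ℝ) : ℂ) = 1 := by
    rw [← Complex.ofReal_mul, inv_mul_cancel₀ (by positivity), Complex.ofReal_one]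
  simp only [← mul_assoc, h3, one_mul]

theorem hopf_ne_zero {p : ℂ × ℂ} (hp : p ≠ 0) : hopf p ≠ 0 := by
  intro h
  have := sq3_hopf p
  rw [h] at this
  apply hp
  apply sq2_eq_zero
  have h0 : sq3 (0 : ℝ × ℂ) = 0 := by simp [sq3]
  rw [h0] at this
  exact pow_eq_zero_iff two_ne_zero |>.1 this.symm

theorem ne_zero_of_hopf {p : ℂ × ℂ} (hp : hopf p ≠ 0) : p ≠ 0 := by
  rintro rfl
  apply hp
  simp [hopf]

/-- nearby nonzero vectors satisfy the transport condition -/
theorem good_of_near {p : ℂ × ℂ} {v : ℝ × ℂ} (hv : v ≠ 0)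
    (hnear : sq3 (v - hopf p) < sq3 (hopf p)) : Good p v := by
  have hlv : 0 < len v := by
    apply Real.sqrt_pos.2
    exact lt_of_le_of_ne (sq3_nonneg v) fun h => hv (sq3_eq_zero h.symm)
  refine ⟨hlv, ?_⟩
  have h1 : sq3 (v - hopf p) = sq3 v + sq3 (hopf p) - 2 * dot3 (hopf p) v := by
    simp only [sq3, dot3, Prod.fst_sub, Prod.snd_sub, Complex.normSq_apply, Complex.sub_re,
      Complex.sub_im]
    ring
  rw [h1] at hnear
  have h2 := sq3_nonneg v
  have h3 : 0 < dot3 (hopf p) v := by linarith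
  have h4 := sq2_nonneg p
  positivity

end Pool.Agent.TH643.FQ
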