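import Pool.Agent.TH643.FQ.Hopf

set_option autoImplicit false
open Set Topology Filter
open scoped ComplexConjugate

namespace Pool.Agent.TH643.FQ

section

variable {X : Type*} [NormedAddCommGroup X] [NormedSpace ℝ X] [FiniteDimensional ℝ X]

/-- locally uniform step size for a nonvanishing map -/
theorem exists_step {g : X → ℝ × ℂ} (hg : Continuous g) (hg0 : ∀ x, g x ≠ 0) :
    ∃ δ : C(X, ℝ), ∀ x, 0 < δ x ∧ ∀ s ∈ Icc (0 : ℝ) 1, ∀ s' ∈ Icc (0 : ℝ) 1, |s - s'| ≤ δ x →
      sq3 (g (s' • x) - g (s • x)) < sq3 (g (s • x)) := by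
  have hX : ProperSpace X := FiniteDimensional.proper ℝ X
  let t : X → Set ℝ := fun x => {d | 0 < d ∧ ∀ s ∈ Icc (0 : ℝ) 1, ∀ s' ∈ Icc (0 : ℝ) 1,
    |s - s'| ≤ d → sq3 (g (s' • x) - g (s • x)) < sq3 (g (s • x))}
  have htc : ∀ x, Convex ℝ (t x) := by
    intro x
    apply Set.OrdConnected.convex
    constructor
    rintro d1 ⟨h1, -⟩ d2 ⟨-, h2⟩ d ⟨hd1, hd2⟩
    exact ⟨lt_of_lt_of_le h1 hd1, fun s hs s' hs' hss => h2 s hs s' hs' (hss.trans hd2)⟩
  have H : ∀ x : X, ∃ c : ℝ, ∀ᶠ y in 𝓝 x, c ∈ t y := by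
    intro x
    set R : ℝ := ‖x‖ + 1 with hR
    have hRpos : 0 < R := by positivity
    have hball : IsCompact (Metric.closedBall (0 : X) R) := isCompact_closedBall _ _
    have h3c : Continuous fun z => sq3 (g z) := sq3_cont.comp hg
    obtain ⟨z0, hz0, hmin⟩ := hball.exists_isMinOn ⟨0, by simp [hRpos.le]⟩ h3c.continuousOn
    set m := sq3 (g z0) with hm
    have hmpos : 0 < m := lt_of_le_of_ne (sq3_nonneg _) fun h => hg0 z0 (sq3_eq_zero h.symm)
    have hmle : ∀ z ∈ Metric.closedBall (0 : X) R, m ≤ sq3 (g z) := fun z hz => hmin hz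
    -- uniform continuity in the form needed
    obtain ⟨ε, hε, hεm⟩ : ∃ ε > 0, ∀ v : ℝ × ℂ, ‖v‖ < ε → sq3 v < m := by
      have h0 : sq3 (0 : ℝ × ℂ) = 0 := by simp [sq3]
      have := sq3_cont.tendsto (0 : ℝ × ℂ)
      rw [h0] at this
      obtain ⟨ε, hε, h⟩ := Metric.eventually_nhds_iff.1 (this.eventually (gt_mem_nhds hmpos))
      exact ⟨ε, hε, fun v hv => h (by rwa [dist_zero_right])⟩
    obtain ⟨d0, hd0, hd⟩ := Metric.uniformContinuousOn_iff.1
      (hball.uniformContinuousOn_of_continuous hg.continuousOn) ε hε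
    refine ⟨d0 / (2 * R), ?_⟩
    filter_upwards [Metric.ball_mem_nhds x one_pos] with y hy
    have hyR : ‖y‖ ≤ R := by
      rw [Metric.mem_ball, dist_eq_norm] at hy
      have := norm_sub_norm_le y x
      linarith
    refine ⟨by positivity, ?_⟩
    intro s hs s' hs' hss
    have hmemb : ∀ s ∈ Icc (0 : ℝ) 1, s • y ∈ Metric.closedBall (0 : X) R := by
      intro s hs
      rw [mem_closedBall_zero_iff, norm_smul, Real.norm_eq_abs, abs_of_nonneg hs.1]
      calc s * ‖y‖ ≤ 1 * ‖y‖ := mul_le_mul_of_nonneg_right hs.2 (norm_nonneg _)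
        _ ≤ R := by rw [one_mul]; exact hyR
    apply lt_of_lt_of_le _ (hmle _ (hmemb s hs))
    apply hεm
    rw [← dist_eq_norm]
    apply hd _ (hmemb s' hs') _ (hmemb s hs)
    rw [dist_eq_norm, ← sub_smul, norm_smul, Real.norm_eq_abs, abs_sub_comm]
    calc |s - s'| * ‖y‖ ≤ d0 / (2 * R) * R :=
          mul_le_mul hss hyR (norm_nonneg _) (by positivity)
      _ = d0 / 2 := by field_simp
      _ < d0 := by linarith
  obtain ⟨δ, hδ⟩ := exists_continuous_forall_mem_convex_of_local_const htc H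
  exact ⟨δ, fun x => ⟨(hδ x).1, (hδ x).2⟩⟩

/-- the successive transports -/
noncomputable def steps (g : X → ℝ × ℂ) (δ : X → ℝ) (p0 : ℂ × ℂ) : ℕ → X → ℂ × ℂ
  | 0, _ => p0
  | k + 1, x => tr (steps g δ p0 k x) (g (min 1 (((k + 1 : ℕ) : ℝ) * δ x) • x))

/-- Every nonvanishing continuous map from a finite dimensional space to `ℝ × ℂ` lifts through
the Hopf map. -/
theorem exists_lift {g : X → ℝ × ℂ} (hg : Continuous g) (hg0 : ∀ x, g x ≠ 0) :
    ∃ G : X → ℂ × ℂ, Continuous G ∧ ∀ x, hopf (G x) = g x := by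
  obtain ⟨δ, hδ⟩ := exists_step hg hg0
  -- a starting spinor
  obtain ⟨p0, hp0⟩ : ∃ p0 : ℂ × ℂ, hopf p0 = g 0 := by
    by_cases hgood : Good ((1 : ℂ), (0 : ℂ)) (g 0)
    · exact ⟨_, hopf_tr hgood⟩
    · refine ⟨tr ((0 : ℂ), (1 : ℂ)) (g 0), hopf_tr ?_⟩
      have hl : 0 < len (g 0) := Real.sqrt_pos.2
        (lt_of_le_of_ne (sq3_nonneg _) fun h => hg0 0 (sq3_eq_zero h.symm))
      refine ⟨hl, ?_⟩
      unfold Good at hgood
      simp only [not_and, not_lt] at hgood
      have h1 := hgood hl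
      simp only [sq2, dot3, hopf, mul_zero, zero_mul,
        map_zero, map_one, mul_one, Complex.zero_re, Complex.zero_im, add_zero, zero_add,
        sub_zero, one_mul, zero_sub, neg_mul] at h1 ⊢
      linarith
  let ψ := steps g δ p0
  let a : ℕ → X → ℝ := fun k x => min 1 ((k : ℝ) * δ x)
  have ha : ∀ k x, a k x ∈ Icc (0 : ℝ) 1 := by
    intro k x
    refine ⟨le_min zero_le_one (mul_nonneg (Nat.cast_nonneg k) (hδ x).1.le), min_le_left _ _⟩
  have hak : ∀ k x, |a k x - a (k + 1) x| ≤ δ x := by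
    intro k x
    have h1 := (hδ x).1
    simp only [a]
    push_cast
    rw [abs_sub_comm, abs_of_nonneg (by
      apply sub_nonneg.2
      exact min_le_min le_rfl (by linarith))]
    rcases le_total 1 ((k : ℝ) * δ x) with h2 | h2
    · rw [min_eq_left h2, min_eq_left (by linarith)]
      linarith
    · rw [min_eq_right h2]
      have := min_le_right 1 (((k : ℝ) + 1) * δ x)
      linarith
  have hψ : ∀ k x, hopf (ψ k x) = g (a k x • x) := by
    intro k
    induction k with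
    | zero =>
      intro x
      change hopf p0 = g (min 1 (((0 : ℕ) : ℝ) * δ x) • x)
      rw [hp0]
      simp
    | succ k ih =>
      intro x
      change hopf (tr (ψ k x) (g (a (k + 1) x • x))) = _
      apply hopf_tr
      apply good_of_near (hg0 _)
      rw [ih]
      exact (hδ x).2 _ (ha k x) _ (ha (k + 1) x) (hak k x)
  have hgood : ∀ k x, Good (ψ k x) (g (a (k + 1) x • x)) := by
    intro k x
    apply good_of_near (hg0 _)
    rw [hψ]
    exact (hδ x).2 _ (ha k x) _ (ha (k + 1) x) (hak k x)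
  have hac : ∀ k, Continuous (a k) := fun k =>
    continuous_const.min (continuous_const.mul δ.continuous)
  have hψc : ∀ k, Continuous (ψ k) := by
    intro k
    induction k with
    | zero => exact continuous_const
    | succ k ih =>
      rw [continuous_iff_continuousAt]
      intro x
      change ContinuousAt (fun x => tr (ψ k x) (g (a (k + 1) x • x))) x
      exact ContinuousAt.comp (g := fun z : (ℂ × ℂ) × (ℝ × ℂ) => tr z.1 z.2)
        (f := fun x => (ψ k x, g (a (k + 1) x • x))) (tr_contAt (hgood k x))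
        (ih.continuousAt.prodMk (hg.comp ((hac (k + 1)).smul continuous_id)).continuousAt)
  have hstab : ∀ (k : ℕ) (x : X), 1 ≤ (k : ℝ) * δ x → ∀ m : ℕ, ψ (k + m) x = ψ k x := by
    intro k x hk m
    induction m with
    | zero => rfl
    | succ m ih =>
      have e1 : a (k + m) x = 1 := by
        apply min_eq_left
        push_cast
        have := mul_nonneg (Nat.cast_nonneg (α := ℝ) m) (hδ x).1.le
        rw [add_mul]
        linarith
      have e2 : a (k + m + 1) x = 1 := by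
        apply min_eq_left
        push_cast
        have := mul_nonneg (Nat.cast_nonneg (α := ℝ) m) (hδ x).1.le
        have := (hδ x).1
        rw [add_mul, add_mul]
        linarith
      have e3 : ψ (k + m + 1) x = tr (ψ (k + m) x) (g (a (k + m + 1) x • x)) := rfl
      have e4 : g (a (k + m + 1) x • x) = hopf (ψ (k + m) x) := by
        rw [hψ, e1, e2]
      change ψ (k + m + 1) x = _
      rw [e3, e4, tr_self (ne_zero_of_hopf (by rw [hψ]; exact hg0 _)), ih]
  have hK : ∀ x, 1 ≤ ((⌈(δ x)⁻¹⌉₊ : ℕ) : ℝ) * δ x := by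
    intro x
    have h1 := (hδ x).1
    have h2 := Nat.le_ceil (δ x)⁻¹
    calc (1 : ℝ) = (δ x)⁻¹ * δ x := (inv_mul_cancel₀ h1.ne').symm
      _ ≤ _ := mul_le_mul_of_nonneg_right h2 h1.le
  refine ⟨fun x => ψ ⌈(δ x)⁻¹⌉₊ x, ?_, ?_⟩
  · rw [continuous_iff_continuousAt]
    intro x
    have hinv : ContinuousAt (fun y => (δ y)⁻¹) x :=
      δ.continuous.continuousAt.inv₀ (hδ x).1.ne'
    have hev : ∀ᶠ y in 𝓝 x, (δ y)⁻¹ < (δ x)⁻¹ + 1 :=
      hinv.eventually (gt_mem_nhds (lt_add_one _))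
    set K := ⌈(δ x)⁻¹ + 1⌉₊ with hKd
    have heq : (fun y => ψ ⌈(δ y)⁻¹⌉₊ y) =ᶠ[𝓝 x] ψ K := by
      filter_upwards [hev] with y hy
      have hle : ⌈(δ y)⁻¹⌉₊ ≤ K := Nat.ceil_le_ceil hy.le
      obtain ⟨m, hm⟩ := Nat.exists_eq_add_of_le hle
      rw [hm, hstab _ _ (hK y)]
    exact (hψc K).continuousAt.congr heq.symm
  · intro x
    change hopf (ψ ⌈(δ x)⁻¹⌉₊ x) = g x
    rw [hψ]
    have : a ⌈(δ x)⁻¹⌉₊ x = 1 := min_eq_left (hK x)
    rw [this, one_smul]

end

end Pool.Agent.TH643.FQ
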