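import Pool.Agent.TH643.FQ.Flow

set_option autoImplicit false
open Set Topology Filter

namespace Pool.Agent.TH643.FQ

variable {Y N : Type*} [TopologicalSpace Y] [TopologicalSpace N] {φ : ℝ → Y → Y} {f : Y → N}

/-- the weighted last exit from the support of `w` -/
noncomputable def ex (φ : ℝ → Y → Y) (w : Y → ℝ) (y : Y) : ℝ :=
  sSup (range fun t => Real.exp t * w (φ t y))

theorem ex_shift (h : GFlow φ f) (w : Y → ℝ) (s : ℝ) (y : Y) :
    ex φ w (φ s y) = Real.exp (-s) * ex φ w y := by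
  unfold ex
  have himg : (range fun t => Real.exp t * w (φ t (φ s y))) =
      (fun x => Real.exp (-s) * x) '' (range fun t => Real.exp t * w (φ t y)) := by
    ext x
    constructor
    · rintro ⟨t, rfl⟩
      refine ⟨_, ⟨t + s, rfl⟩, ?_⟩
      simp only
      rw [← h.add, ← mul_assoc, ← Real.exp_add]
      congr 2
      ring
    · rintro ⟨_, ⟨t, rfl⟩, rfl⟩
      refine ⟨t - s, ?_⟩
      simp only
      rw [← h.add, ← mul_assoc, ← Real.exp_add, sub_add_cancel]
      congr 2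
      ring
  rw [himg]
  exact Real.sSup_smul_of_nonneg (Real.exp_pos (-s)).le
    (range fun t => Real.exp t * w (φ t y))

section

variable [T2Space Y] [LocallyCompactSpace Y] [T2Space N]

omit [T2Space Y] [LocallyCompactSpace Y] [T2Space N] in
theorem GFlow.free_of_not_compact (h : GFlow φ f) {y : Y} (hy : ¬ IsCompact (f ⁻¹' {f y})) :
    ∀ T, φ T y = y → T = 0 := by
  intro T hT
  by_contra hT0
  exact hy (h.compact_of_periodic hT0 hT)

theorem ex_bdd (h : GFlow φ f) {w : Y → ℝ} (hw1 : ∀ y, w y ≤ 1)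
    (hws : HasCompactSupport w) {y : Y} (hy : ¬ IsCompact (f ⁻¹' {f y})) :
    BddAbove (range fun t => Real.exp t * w (φ t y)) := by
  obtain ⟨B, hB⟩ := h.proper (h.free_of_not_compact hy) hws
  refine ⟨Real.exp B, ?_⟩
  rintro _ ⟨t, rfl⟩
  by_cases ht : φ t y ∈ tsupport w
  · have h1 : t ≤ B := (le_abs_self t).trans (hB t ht)
    calc Real.exp t * w (φ t y) ≤ Real.exp t * 1 :=
          mul_le_mul_of_nonneg_left (hw1 _) (Real.exp_pos t).le
      _ ≤ Real.exp B := by rw [mul_one]; exact Real.exp_le_exp.2 h1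
  · have : w (φ t y) = 0 := image_eq_zero_of_notMem_tsupport ht
    simp only [this, mul_zero]
    exact (Real.exp_pos B).le

theorem ex_pos (h : GFlow φ f) {w : Y → ℝ} (hw1 : ∀ y, w y ≤ 1)
    (hws : HasCompactSupport w) {y : Y} (hy : ¬ IsCompact (f ⁻¹' {f y}))
    (hpos : ∃ z, f z = f y ∧ 0 < w z) : 0 < ex φ w y := by
  obtain ⟨z, hz, hwz⟩ := hpos
  obtain ⟨t, rfl⟩ := (h.fibre y z).1 hz.symm
  exact lt_of_lt_of_le (mul_pos (Real.exp_pos t) hwz)
    (le_csSup (ex_bdd h hw1 hws hy) ⟨t, rfl⟩)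

/-- The key semicontinuity statement: on orbits near that of `y0` there are points near `y0` with
almost the same weighted last exit. -/
theorem ex_near (h : GFlow φ f) {w : Y → ℝ} (hwc : Continuous w) (hw0 : ∀ y, 0 ≤ w y)
    (hw1 : ∀ y, w y ≤ 1) (hws : HasCompactSupport w) {K : Set N}
    (hK : ∀ n ∈ K, ¬ IsCompact (f ⁻¹' {n})) (hKw : ∀ n ∈ K, ∃ z, f z = n ∧ 0 < w z)
    {y0 : Y} (hy0 : f y0 ∈ K) {U0 : Set Y} (hU0 : U0 ∈ 𝓝 y0) {δ : ℝ} (hδ : 0 < δ) :
    ∀ᶠ n in 𝓝[K] (f y0), ∃ y ∈ U0, f y = n ∧ |ex φ w y - ex φ w y0| < δ := by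
  have hE0 := ex_pos h hw1 hws (hK _ hy0) (hKw _ hy0)
  set E0 := ex φ w y0 with hE0d
  obtain ⟨B, hB⟩ := h.proper (h.free_of_not_compact (hK _ hy0)) hws
  set M := tsupport w with hMd
  have hMc : IsCompact M := hws
  have hBn : 0 ≤ |B| := abs_nonneg B
  have hBB : B ≤ |B| := le_abs_self B
  set b : ℝ := |B| + 1 with hb
  -- the lower cut-off time
  obtain ⟨a, ha1, ha2⟩ : ∃ a : ℝ, a ≤ -b ∧ Real.exp a ≤ E0 / 2 := by
    refine ⟨min (-b) (Real.log (E0 / 2)), min_le_left _ _, ?_⟩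
    calc Real.exp (min (-b) (Real.log (E0 / 2))) ≤ Real.exp (Real.log (E0 / 2)) :=
          Real.exp_le_exp.2 (min_le_right _ _)
      _ = E0 / 2 := Real.exp_log (by linarith)
  set η : ℝ := δ / (2 * Real.exp b) with hη
  have hη0 : 0 < η := div_pos hδ (mul_pos two_pos (Real.exp_pos b))
  have hbη : Real.exp b * η = δ / 2 := by
    rw [hη]
    have := (Real.exp_pos b).ne'
    field_simp
  -- uniform closeness on `[a, b]`
  have hunif : ∀ᶠ y in 𝓝 y0, ∀ u ∈ Icc a b, |w (φ u y) - w (φ u y0)| < η := by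
    apply IsCompact.eventually_forall_of_forall_eventually isCompact_Icc
    intro u _
    have hc : Continuous (fun p : Y × ℝ => |w (φ p.2 p.1) - w (φ p.2 y0)|) := by
      apply Continuous.abs
      apply Continuous.sub
      · exact hwc.comp (h.cont.comp (continuous_snd.prodMk continuous_fst))
      · exact hwc.comp (h.cont.comp (continuous_snd.prodMk continuous_const))
    have := hc.tendsto (y0, u)
    simp only [sub_self, abs_zero] at this
    exact this.eventually (gt_mem_nhds hη0)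
  obtain ⟨U, hUsub, hUo, hyU⟩ := mem_nhds_iff.1 (Filter.inter_mem hU0 hunif)
  -- the flowed neighbourhood
  let O1 : Set Y := {z | ∃ s, |s| < b ∧ φ (-s) z ∈ U}
  have hO1 : IsOpen O1 := by
    have : O1 = ⋃ s : {s : ℝ // |s| < b}, (fun z => φ (-s.1) z) ⁻¹' U := by
      ext z
      simp [O1]
    rw [this]
    exact isOpen_iUnion fun s => hUo.preimage (h.time_cont _)
  have hMO : IsClosed (f '' (M \ O1)) := ((hMc.diff hO1).image h.fcont).isClosed
  have hn0 : f y0 ∉ f '' (M \ O1) := by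
    rintro ⟨z, ⟨hzM, hzO⟩, hz⟩
    obtain ⟨t, rfl⟩ := (h.fibre y0 z).1 hz.symm
    apply hzO
    refine ⟨t, ?_, ?_⟩
    · have := hB t hzM
      linarith
    · rw [h.neg_add]
      exact hyU
  have hev : ∀ᶠ n in 𝓝 (f y0), n ∉ f '' (M \ O1) := hMO.isOpen_compl.mem_nhds hn0
  filter_upwards [mem_nhdsWithin_of_mem_nhds hev, self_mem_nhdsWithin] with n hn hnK
  obtain ⟨z0, hz0, hwz0⟩ := hKw n hnK
  have hz0c : ¬ IsCompact (f ⁻¹' {f z0}) := by rw [hz0]; exact hK n hnK
  obtain ⟨B', hB'⟩ := h.proper (h.free_of_not_compact hz0c) hws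
  -- the last exit
  have hS : IsCompact {t : ℝ | φ t z0 ∈ M} := by
    apply (isCompact_Icc (a := -B') (b := B')).of_isClosed_subset
      (hMc.isClosed.preimage (h.orbit_cont z0))
    intro t ht
    exact abs_le.1 (hB' t ht)
  obtain ⟨t1, ht1, ht1max⟩ := hS.exists_isGreatest ⟨0, by
    change φ 0 z0 ∈ M
    rw [h.zero]
    exact subset_tsupport w (ne_of_gt hwz0)⟩
  have hzM : φ t1 z0 ∈ M := ht1
  have hzO : φ t1 z0 ∈ O1 := by
    by_contra hcon
    exact hn ⟨φ t1 z0, ⟨hzM, hcon⟩, by rw [h.f_flow, hz0]⟩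
  obtain ⟨s, hs, hsU⟩ := hzO
  set y : Y := φ (-s) (φ t1 z0) with hy
  have hfy : f y = n := by rw [hy, h.f_flow, h.f_flow, hz0]
  have hyc : ¬ IsCompact (f ⁻¹' {f y}) := by rw [hfy]; exact hK n hnK
  refine ⟨y, (hUsub hsU).1, hfy, ?_⟩
  have hclose : ∀ u ∈ Icc a b, |w (φ u y) - w (φ u y0)| < η := (hUsub hsU).2
  have hlate : ∀ u, b < u → w (φ u y) = 0 := by
    intro u hu
    apply image_eq_zero_of_notMem_tsupport
    intro hcon
    have e1 : φ u y = φ (u - s + t1) z0 := by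
      rw [hy, ← h.add, ← h.add]
      congr 1
    rw [e1] at hcon
    have := ht1max hcon
    have h2 := (abs_lt.1 hs).2
    linarith
  have hout0 : ∀ u, u ∉ Icc a b → w (φ u y0) = 0 := by
    intro u hu
    apply image_eq_zero_of_notMem_tsupport
    intro hcon
    apply hu
    have := abs_le.1 (hB u hcon)
    constructor <;> linarith [this.1, this.2]
  have hbd0 := ex_bdd h hw1 hws (hK _ hy0)
  have hbd := ex_bdd h hw1 hws hyc
  have hle0 : ∀ u, Real.exp u * w (φ u y0) ≤ E0 := fun u => le_csSup hbd0 ⟨u, rfl⟩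
  have hle : ∀ u, Real.exp u * w (φ u y) ≤ ex φ w y := fun u => le_csSup hbd ⟨u, rfl⟩
  have hEy0 : 0 ≤ ex φ w y := (mul_nonneg (Real.exp_pos 0).le (hw0 _)).trans (hle 0)
  have hexp : ∀ u ∈ Icc a b, ∀ x y : ℝ, |x - y| < η → Real.exp u * x ≤ Real.exp u * y + δ / 2 := by
    intro u hu x y hxy
    have h1 : Real.exp u ≤ Real.exp b := Real.exp_le_exp.2 hu.2
    have h2 : x - y ≤ η := (le_abs_self _).trans hxy.le
    have h3 : Real.exp u * (x - y) ≤ Real.exp b * η := by
      calc Real.exp u * (x - y) ≤ Real.exp u * η :=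
            mul_le_mul_of_nonneg_left h2 (Real.exp_pos u).le
        _ ≤ Real.exp b * η := mul_le_mul_of_nonneg_right h1 hη0.le
    rw [hbη] at h3
    linarith
  have hup : ex φ w y ≤ E0 + δ / 2 := by
    apply csSup_le (range_nonempty _)
    rintro _ ⟨u, rfl⟩
    simp only
    by_cases hu : u ∈ Icc a b
    · have := hexp u hu _ _ (hclose u hu)
      linarith [hle0 u]
    · rcases not_and_or.1 hu with hu | hu
      · have h1 : Real.exp u * w (φ u y) ≤ Real.exp a := by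
          calc Real.exp u * w (φ u y) ≤ Real.exp u * 1 :=
                mul_le_mul_of_nonneg_left (hw1 _) (Real.exp_pos u).le
            _ ≤ Real.exp a := by rw [mul_one]; exact Real.exp_le_exp.2 (not_le.1 hu).le
        linarith
      · rw [hlate u (not_le.1 hu)]
        linarith
  have hlow : E0 ≤ ex φ w y + δ / 2 := by
    rw [hE0d]
    apply csSup_le (range_nonempty _)
    rintro _ ⟨u, rfl⟩
    simp only
    by_cases hu : u ∈ Icc a b
    · have := hexp u hu _ _ (by rw [abs_sub_comm]; exact hclose u hu)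
      linarith [hle u]
    · rw [hout0 u hu, mul_zero]
      linarith
  rw [abs_lt]
  constructor <;> linarith

/-- Over a compact set of noncompact orbits there is a continuous section. -/
theorem GFlow.exists_section [Nonempty Y] (h : GFlow φ f) {K : Set N} (hKc : IsCompact K)
    (hr : K ⊆ range f) (hK : ∀ n ∈ K, ¬ IsCompact (f ⁻¹' {n})) :
    ∃ σ : N → Y, ContinuousOn σ K ∧ ∀ m ∈ K, f (σ m) = m := by
  classical
  -- a compact set meeting all the orbits over `K`
  obtain ⟨M0, hM0c, hM0⟩ : ∃ M0 : Set Y, IsCompact M0 ∧ ∀ n ∈ K, ∃ z ∈ M0, f z = n := by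
    refine hKc.induction_on (p := fun s => ∃ M0 : Set Y, IsCompact M0 ∧ ∀ n ∈ s, ∃ z ∈ M0, f z = n)
      ⟨∅, isCompact_empty, by simp⟩ ?_ ?_ ?_
    · rintro s t hst ⟨L, hL, hL'⟩
      exact ⟨L, hL, fun m hm => hL' m (hst hm)⟩
    · rintro s t ⟨L, hL, hL'⟩ ⟨L2, hL2, hL2'⟩
      refine ⟨L ∪ L2, hL.union hL2, ?_⟩
      rintro m (hm | hm)
      · obtain ⟨z, hz, hzm⟩ := hL' m hm
        exact ⟨z, Or.inl hz, hzm⟩
      · obtain ⟨z, hz, hzm⟩ := hL2' m hm
        exact ⟨z, Or.inr hz, hzm⟩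
    · intro n hn
      obtain ⟨y, rfl⟩ := hr hn
      obtain ⟨L, hLc, hL⟩ := exists_compact_mem_nhds y
      refine ⟨f '' interior L, mem_nhdsWithin_of_mem_nhds ((h.fopen _ isOpen_interior).mem_nhds
        ⟨y, mem_interior_iff_mem_nhds.2 hL, rfl⟩), L, hLc, ?_⟩
      rintro _ ⟨z, hz, rfl⟩
      exact ⟨z, interior_subset hz, rfl⟩
  obtain ⟨w, hw1, hws, hwI⟩ := exists_continuousMap_one_of_isCompact_subset_isOpen hM0c isOpen_univ
    (subset_univ M0)
  have hw0' : ∀ y, 0 ≤ w y := fun y => (hwI.2 y).1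
  have hw1' : ∀ y, w y ≤ 1 := fun y => (hwI.2 y).2
  have hKw : ∀ n ∈ K, ∃ z, f z = n ∧ 0 < w z := by
    intro n hn
    obtain ⟨z, hz, hzn⟩ := hM0 n hn
    refine ⟨z, hzn, ?_⟩
    have : w z = 1 := hw1 hz
    rw [this]
    exact one_pos
  choose! p hp using fun m (hm : m ∈ K) => hr hm
  let SS : Y → Y := fun y => φ (Real.log (ex φ w y)) y
  have hpos : ∀ y, f y ∈ K → 0 < ex φ w y := fun y hy =>
    ex_pos h hw1' hws (hK _ hy) (hKw _ hy)
  have hS : ∀ y, f y ∈ K → ∀ y', f y' = f y → SS y' = SS y := by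
    intro y hy y' hy'
    obtain ⟨r, rfl⟩ := (h.fibre y y').1 hy'.symm
    simp only [SS]
    rw [ex_shift h, Real.log_mul (Real.exp_pos _).ne' (hpos y hy).ne', Real.log_exp, ← h.add]
    congr 1
    ring
  refine ⟨fun m => SS (p m), ?_, fun m hm => by simp only [SS]; rw [h.f_flow, hp m hm]⟩
  intro m0 hm0
  set y0 := p m0 with hy0
  have hfy0 : f y0 = m0 := hp m0 hm0
  have hy0K : f y0 ∈ K := by rw [hfy0]; exact hm0
  rw [ContinuousWithinAt]
  intro W hW
  change _ ∈ 𝓝[K] m0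
  -- joint continuity
  have hlog : ContinuousAt (fun p : ℝ × Y => φ (Real.log p.1) p.2) (ex φ w y0, y0) := by
    apply h.cont.continuousAt.comp (f := fun p : ℝ × Y => (Real.log p.1, p.2))
    apply ContinuousAt.prodMk
    · exact ContinuousAt.comp (g := Real.log) (f := fun p : ℝ × Y => p.1)
        (x := (ex φ w y0, y0)) (Real.continuousAt_log (hpos y0 hy0K).ne') continuousAt_fst
    · exact continuousAt_snd
  have hpre : (fun p : ℝ × Y => φ (Real.log p.1) p.2) ⁻¹' W ∈ 𝓝 (ex φ w y0, y0) := hlog hW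
  rw [nhds_prod_eq, Filter.mem_prod_iff] at hpre
  obtain ⟨A, hA, U0, hU0, hAU⟩ := hpre
  obtain ⟨δ, hδ, hδA⟩ := Metric.mem_nhds_iff.1 hA
  have hnear := ex_near h w.continuous hw0' hw1' hws hK hKw hy0K hU0 hδ
  rw [hfy0] at hnear
  filter_upwards [hnear, self_mem_nhdsWithin] with m hm hmK
  obtain ⟨y, hyU, hfy, hyδ⟩ := hm
  have e1 : SS (p m) = SS y := by
    apply hS y (by rw [hfy]; exact hmK)
    rw [hp m hmK, hfy]
  change SS (p m) ∈ W
  rw [e1]
  have : (ex φ w y, y) ∈ A ×ˢ U0 := ⟨hδA (by rw [Metric.mem_ball, Real.dist_eq]; exact hyδ), hyU⟩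
  exact hAU this

end

end Pool.Agent.TH643.FQ
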