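import Pool.Agent.TH643.FQ.Hopf
import Pool.Agent.H289R3.FQ.Tasks

set_option autoImplicit false
open Set Topology Filter
open scoped ComplexConjugate
open Pool.Agent.H289R3.FQ (T1)

namespace Pool.Agent.TH643.FQ

/-- `e x = exp (2 π i x)` -/
noncomputable def ec (x : ℝ) : ℂ := (Circle.exp (2 * Real.pi * x) : ℂ)

theorem ec_add (x y : ℝ) : ec (x + y) = ec x * ec y := by
  unfold ec
  rw [mul_add, Circle.exp_add]
  rfl

theorem ec_int (n : ℤ) : ec n = 1 := by
  unfold ec
  rw [mul_comm (2 * Real.pi) (n : ℝ)]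
  rw [Circle.exp_int_mul_two_pi n]
  rfl

theorem ec_zero : ec 0 = 1 := by simpa using ec_int 0

theorem ec_ne (x : ℝ) : ec x ≠ 0 := Circle.coe_ne_zero _

theorem ec_neg_half : ec (-(1 / 2)) = -1 := by
  unfold ec
  rw [Circle.coe_exp]
  have : ((2 * Real.pi * (-(1 / 2)) : ℝ) : ℂ) * Complex.I = -(Real.pi * Complex.I) := by
    push_cast
    ring
  rw [this, Complex.exp_neg, Complex.exp_pi_mul_I]
  norm_num

theorem ec_half : ec (1 / 2) = -1 := by
  unfold ec
  rw [Circle.coe_exp]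
  have : ((2 * Real.pi * (1 / 2) : ℝ) : ℂ) * Complex.I = (Real.pi * Complex.I) := by
    push_cast
    ring
  rw [this, Complex.exp_pi_mul_I]

theorem ec_cont : Continuous ec := by
  unfold ec
  exact continuous_subtype_val.comp (Circle.exp.continuous.comp (by fun_prop))

/-- a twisted periodic function -/
noncomputable def tht (u v : ℝ) : ℂ :=
  ((1 - Int.fract v : ℝ) : ℂ) * ec (-(⌊v⌋ * u)) + ((Int.fract v : ℝ) : ℂ) * ec (-((⌊v⌋ + 1) * u))

theorem tht_eq_finsum (u v : ℝ) :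
    tht u v = ∑ᶠ n : ℤ, ((max 0 (1 - |v - n|) : ℝ) : ℂ) * ec (-(n * u)) := by
  have hf0 := Int.fract_nonneg v
  have hf1 := Int.fract_lt_one v
  have hfr : v = ⌊v⌋ + Int.fract v := (Int.floor_add_fract v).symm
  rw [finsum_eq_sum_of_support_subset (s := {⌊v⌋, ⌊v⌋ + 1})]
  · rw [Finset.sum_pair (by omega)]
    have h1 : |v - (⌊v⌋ : ℤ)| = Int.fract v := by
      rw [Int.self_sub_floor, abs_of_nonneg hf0]
    have h2 : |v - ((⌊v⌋ + 1 : ℤ) : ℝ)| = 1 - Int.fract v := by
      push_cast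
      rw [show v - (⌊v⌋ + 1 : ℝ) = -(1 - Int.fract v) by rw [Int.fract]; ring, abs_neg,
        abs_of_nonneg (by linarith)]
    rw [h1, h2, max_eq_right (by linarith), max_eq_right (by linarith)]
    unfold tht
    push_cast
    ring_nf
  · intro n hn
    rw [Function.mem_support] at hn
    have h3 : max 0 (1 - |v - n|) ≠ 0 := by
      intro h
      apply hn
      rw [h]
      simp
    have h4 : |v - n| < 1 := by
      by_contra hcon
      exact h3 (max_eq_left (by linarith))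
    rw [abs_lt] at h4
    have h5 : n < ⌊v⌋ + 2 := by
      have : (n : ℝ) < ⌊v⌋ + 2 := by linarith [h4.1]
      exact_mod_cast this
    have h6 : ⌊v⌋ - 1 < n := by
      have : (⌊v⌋ : ℝ) - 1 < n := by linarith [h4.2]
      exact_mod_cast this
    simp only [Finset.coe_insert, Finset.coe_singleton, mem_insert_iff, mem_singleton_iff]
    omega

theorem tht_cont : Continuous (fun p : ℝ × ℝ => tht p.1 p.2) := by
  simp_rw [tht_eq_finsum]
  apply continuous_finsum
  · intro n
    have := ec_cont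
    fun_prop
  · intro p
    refine ⟨{q | |q.2 - p.2| < 1}, ?_, ?_⟩
    · apply (isOpen_lt (by fun_prop) continuous_const).mem_nhds
      simp
    · apply (Set.finite_Icc (⌊p.2⌋ - 2) (⌊p.2⌋ + 3)).subset
      rintro n ⟨q, hq1, hq2⟩
      rw [Function.mem_support] at hq1
      have h3 : max 0 (1 - |q.2 - n|) ≠ 0 := by
        intro h
        apply hq1
        rw [h]
        simp
      have h4 : |q.2 - n| < 1 := by
        by_contra hcon
        exact h3 (max_eq_left (by linarith))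
      have h5 : |q.2 - p.2| < 1 := hq2
      rw [abs_lt] at h4 h5
      have h6 := Int.floor_le p.2
      have h7 := Int.lt_floor_add_one p.2
      constructor
      · have : ((⌊p.2⌋ - 2 : ℤ) : ℝ) < n := by push_cast; linarith [h4.1, h4.2, h5.1, h5.2]
        exact (Int.cast_lt.1 this).le
      · have : (n : ℝ) < ((⌊p.2⌋ + 3 : ℤ) : ℝ) := by push_cast; linarith [h4.1, h4.2, h5.1, h5.2]
        exact (Int.cast_lt.1 this).le

theorem tht_left (u v : ℝ) : tht (u + 1) v = tht u v := by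
  unfold tht
  have h1 : ec (-(⌊v⌋ * (u + 1))) = ec (-(⌊v⌋ * u)) := by
    rw [show -((⌊v⌋ : ℝ) * (u + 1)) = -(⌊v⌋ * u) + ((-⌊v⌋ : ℤ) : ℝ) by push_cast; ring, ec_add,
      ec_int, mul_one]
  have h2 : ec (-((⌊v⌋ + 1) * (u + 1))) = ec (-((⌊v⌋ + 1) * u)) := by
    rw [show -(((⌊v⌋ : ℝ) + 1) * (u + 1)) = -((⌊v⌋ + 1) * u) + ((-(⌊v⌋ + 1) : ℤ) : ℝ) by
      push_cast; ring, ec_add, ec_int, mul_one]
  rw [h1, h2]

theorem tht_right (u v : ℝ) : tht u (v + 1) = ec (-u) * tht u v := by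
  unfold tht
  rw [Int.fract_add_one, Int.floor_add_one]
  have h1 : ec (-(((⌊v⌋ + 1 : ℤ) : ℝ) * u)) = ec (-u) * ec (-(⌊v⌋ * u)) := by
    rw [← ec_add]
    congr 1
    push_cast
    ring
  have h2 : ec (-((((⌊v⌋ + 1 : ℤ) : ℝ) + 1) * u)) = ec (-u) * ec (-((⌊v⌋ + 1) * u)) := by
    rw [← ec_add]
    congr 1
    push_cast
    ring
  rw [h1, h2]
  ring

/-- a nowhere vanishing twisted periodic spinor -/
noncomputable def lam (u v : ℝ) : ℂ × ℂ := (tht u v, ec (v / 2) * tht (u + 1 / 2) v)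

theorem lam_cont : Continuous (fun p : ℝ × ℝ => lam p.1 p.2) := by
  unfold lam
  apply tht_cont.prodMk
  apply Continuous.mul
  · exact ec_cont.comp (by fun_prop)
  · exact tht_cont.comp (by fun_prop : Continuous fun p : ℝ × ℝ => (p.1 + 1 / 2, p.2))

theorem lam_left (u v : ℝ) : lam (u + 1) v = lam u v := by
  unfold lam
  rw [tht_left, show u + 1 + 1 / 2 = u + 1 / 2 + 1 by ring, tht_left]

theorem lam_right (u v : ℝ) : lam u (v + 1) = (ec (-u) * (lam u v).1, ec (-u) * (lam u v).2) := by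
  unfold lam
  refine Prod.ext (tht_right u v) ?_
  simp only
  rw [tht_right, show (v + 1) / 2 = v / 2 + 1 / 2 by ring, ec_add, ec_half,
    show -(u + 1 / 2) = -u + -(1 / 2) by ring, ec_add, ec_neg_half]
  ring

theorem lam_ne (u v : ℝ) : lam u v ≠ 0 := by
  intro h
  have h1 : tht u v = 0 := congrArg Prod.fst h
  have h2 : ec (v / 2) * tht (u + 1 / 2) v = 0 := congrArg Prod.snd h
  have h3 : tht (u + 1 / 2) v = 0 := (mul_eq_zero.1 h2).resolve_left (ec_ne _)
  unfold tht at h1 h3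
  set m := ⌊v⌋
  set t := Int.fract v
  -- factor out
  have e1 : ec (-((m + 1) * u)) = ec (-(m * u)) * ec (-u) := by
    rw [← ec_add]; congr 1; ring
  have e2 : ec (-((m + 1) * (u + 1 / 2))) = ec (-(m * (u + 1 / 2))) * (ec (-u) * (-1)) := by
    rw [← ec_neg_half, ← ec_add, ← ec_add]; congr 1; ring
  rw [e1] at h1
  rw [e2] at h3
  have f1 : ((1 - t : ℝ) : ℂ) + ((t : ℝ) : ℂ) * ec (-u) = 0 := by
    apply (mul_eq_zero.1 (_ : ec (-(m * u)) * (((1 - t : ℝ) : ℂ) + ((t : ℝ) : ℂ) * ec (-u)) = 0)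
      ).resolve_left (ec_ne _)
    rw [← h1]
    ring
  have f2 : ((1 - t : ℝ) : ℂ) - ((t : ℝ) : ℂ) * ec (-u) = 0 := by
    apply (mul_eq_zero.1 (_ : ec (-(m * (u + 1 / 2))) *
      (((1 - t : ℝ) : ℂ) - ((t : ℝ) : ℂ) * ec (-u)) = 0)).resolve_left (ec_ne _)
    rw [← h3]
    ring
  have f3 : ((t : ℝ) : ℂ) * ec (-u) = 0 := by linear_combination (f1 - f2) / 2
  have f4 : ((t : ℝ) : ℂ) = 0 := (mul_eq_zero.1 f3).resolve_right (ec_ne _)
  rw [f3, sub_zero] at f2
  push_cast at f2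
  rw [f4] at f2
  norm_num at f2

/-! The angle. -/

/-- the angle of a complex number, in `ℝ/ℤ` -/
noncomputable def ang (z : ℂ) : T1 :=
  (AddCircle.homeomorphCircle (T := 1) one_ne_zero).symm (Circle.exp (Complex.arg z))

theorem ang_cont {z : ℂ} (hz : z ≠ 0) : ContinuousAt ang z := by
  apply (AddCircle.homeomorphCircle (T := 1) one_ne_zero).symm.continuous.continuousAt.comp
  refine (Topology.IsInducing.continuousAt_iff
    (⟨rfl⟩ : Topology.IsInducing (fun c : Circle => (c : ℂ)))).2 ?_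
  have h1 : ContinuousAt (fun w : ℂ => w / ‖w‖) z := by
    apply ContinuousAt.div continuousAt_id
    · exact (Complex.continuous_ofReal.comp continuous_norm).continuousAt
    · simpa using hz
  apply h1.congr
  filter_upwards [isOpen_ne.mem_nhds hz] with w hw
  have hw' : (‖w‖ : ℂ) ≠ 0 := by simpa using hw
  change w / ‖w‖ = (Circle.exp (Complex.arg w) : ℂ)
  rw [Circle.coe_exp, div_eq_iff hw', mul_comm]
  exact (Complex.norm_mul_exp_arg_mul_I w).symm

theorem ang_mul (x : ℝ) {z : ℂ} (hz : z ≠ 0) : ang (ec x * z) = ang z + (x : T1) := by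
  unfold ang
  rw [Homeomorph.symm_apply_eq, AddCircle.homeomorphCircle_apply, AddCircle.toCircle_add,
    ← AddCircle.homeomorphCircle_apply one_ne_zero, Homeomorph.apply_symm_apply,
    AddCircle.toCircle_apply_mk]
  apply Circle.ext
  rw [Circle.coe_mul]
  have hw' : (‖z‖ : ℂ) ≠ 0 := by simpa using hz
  have hwx : ec x * z ≠ 0 := mul_ne_zero (ec_ne x) hz
  have h1 := Complex.norm_mul_exp_arg_mul_I (ec x * z)
  have h2 := Complex.norm_mul_exp_arg_mul_I z
  have hn : ‖ec x * z‖ = ‖z‖ := by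
    rw [norm_mul]
    have : ‖ec x‖ = 1 := Circle.norm_coe _
    rw [this, one_mul]
  rw [Circle.coe_exp, Circle.coe_exp]
  have hx : ((Circle.exp (2 * Real.pi / 1 * x) : Circle) : ℂ) = ec x := by
    unfold ec
    rw [div_one]
  rw [hx]
  apply mul_left_cancel₀ hw'
  rw [← hn, h1, hn, ← mul_assoc, h2, mul_comm]

/-- the hermitian product of two spinors -/
noncomputable def inr (p q : ℂ × ℂ) : ℂ := conj p.1 * q.1 + conj p.2 * q.2

theorem inr_cont : Continuous (fun x : (ℂ × ℂ) × (ℂ × ℂ) => inr x.1 x.2) := by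
  unfold inr
  fun_prop

theorem normSq_inr (p q : ℂ × ℂ) :
    Complex.normSq (inr p q) = (sq2 p * sq2 q + dot3 (hopf p) (hopf q)) / 2 := by
  unfold inr sq2 dot3 hopf
  simp only [Complex.normSq_apply, Complex.add_re, Complex.add_im, Complex.mul_re, Complex.mul_im,
    Complex.conj_re, Complex.conj_im, Complex.re_ofNat, Complex.im_ofNat]
  ring

theorem inr_ne {p q : ℂ × ℂ} (hp : p ≠ 0) (h : hopf p = hopf q) : inr p q ≠ 0 := by
  intro h0
  have h1 := normSq_inr p q
  rw [h0, Complex.normSq_zero, ← h] at h1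
  have h2 : 0 < sq2 p := lt_of_le_of_ne (sq2_nonneg p) fun h => hp (sq2_eq_zero h.symm)
  have h3 := sq2_nonneg q
  have h4 : 0 ≤ dot3 (hopf p) (hopf p) := by
    unfold dot3
    nlinarith [sq_nonneg (hopf p).1, sq_nonneg (hopf p).2.re, sq_nonneg (hopf p).2.im]
  have h5 : sq2 q = sq2 p := by rw [← len_hopf, ← len_hopf, h]
  rw [h5] at h1
  nlinarith

theorem hopf_ec (x : ℝ) (p : ℂ × ℂ) : hopf (ec x * p.1, ec x * p.2) = hopf p := by
  have hn : Complex.normSq (ec x) = 1 := by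
    unfold ec
    exact Circle.normSq_coe _
  have hc : ec x * conj (ec x) = 1 := by
    rw [Complex.mul_conj, hn, Complex.ofReal_one]
  unfold hopf
  refine Prod.ext ?_ ?_
  · simp only [Complex.normSq_mul, hn, one_mul]
  · simp only [map_mul]
    linear_combination (2 * p.1 * conj p.2) * hc

theorem conj_ec (x : ℝ) : conj (ec (-x)) = ec x := by
  unfold ec
  rw [Circle.coe_exp, Circle.coe_exp, ← Complex.exp_conj]
  congr 1
  rw [map_mul, Complex.conj_ofReal, Complex.conj_I]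
  push_cast
  ring

/-- the doubly periodic map to the punctured space -/
noncomputable def EE (u v : ℝ) : ℝ × ℂ := hopf (lam u v)

theorem EE_cont : Continuous (fun p : ℝ × ℝ => EE p.1 p.2) := hopf_cont.comp lam_cont

theorem EE_ne (u v : ℝ) : EE u v ≠ 0 := hopf_ne_zero (lam_ne u v)

theorem EE_left (u v : ℝ) : EE (u + 1) v = EE u v := by
  unfold EE
  rw [lam_left]

theorem EE_right (u v : ℝ) : EE u (v + 1) = EE u v := by
  unfold EE
  rw [lam_right, hopf_ec]

/-- the angle of a spinor relative to the reference spinor -/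
noncomputable def DD (q : ℂ × ℂ) (u v : ℝ) : T1 := ang (inr (lam u v) q)

theorem DD_contAt {q : ℂ × ℂ} {u v : ℝ} (h : hopf q = EE u v) :
    ContinuousAt (fun x : (ℂ × ℂ) × (ℝ × ℝ) => DD x.1 x.2.1 x.2.2) (q, (u, v)) := by
  have h1 : inr (lam u v) q ≠ 0 := inr_ne (lam_ne u v) h.symm
  have h2 : Continuous (fun x : (ℂ × ℂ) × (ℝ × ℝ) => inr (lam x.2.1 x.2.2) x.1) :=
    inr_cont.comp ((lam_cont.comp continuous_snd).prodMk continuous_fst)
  exact ContinuousAt.comp (g := ang) (f := fun x : (ℂ × ℂ) × (ℝ × ℝ) => inr (lam x.2.1 x.2.2) x.1)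
    (ang_cont h1) h2.continuousAt

theorem DD_left (q : ℂ × ℂ) (u v : ℝ) : DD q (u + 1) v = DD q u v := by
  unfold DD
  rw [lam_left]

theorem DD_right {q : ℂ × ℂ} {u v : ℝ} (h : hopf q = EE u v) :
    DD q u (v + 1) = DD q u v + (u : T1) := by
  have h1 : inr (lam u v) q ≠ 0 := inr_ne (lam_ne u v) h.symm
  unfold DD
  rw [← ang_mul u h1]
  congr 1
  rw [lam_right]
  unfold inr
  simp only [map_mul]
  rw [conj_ec]
  ring

end Pool.Agent.TH643.FQ
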