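import Pool.Agent.TH643.FQ.BData
import Pool.Agent.TH643.FQ.Section
import Pool.Agent.TH643.FQ.Lift
import Pool.Agent.TH643.FQ.Theta
import Pool.Agent.H790.FQ.Torus
import Pool.Agent.H672R3.FQ.Stokes

set_option autoImplicit false
open Set Topology Filter
open Pool.Agent.H289R3.FQ (T1 ee)

namespace Pool.Agent.TH643.FQ

/-- the product of three copies of `ℝ³` minus the origin -/
abbrev NN : Type := {m : Fin 3 → ℝ × ℂ // ∀ i, m i ≠ 0}

/-- the map of the torus (as a periodic map) -/
noncomputable def emap (y : Fin 5 → ℝ) : NN :=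
  ⟨![EE (y 0) (y 1), EE (y 2) (y 3), EE (y 2) (y 4)], by
    intro i
    fin_cases i
    · exact EE_ne _ _
    · exact EE_ne _ _
    · exact EE_ne _ _⟩

theorem EE_comp (a b : Fin 5) : Continuous fun y : Fin 5 → ℝ => EE (y a) (y b) :=
  Continuous.comp (g := fun p : ℝ × ℝ => EE p.1 p.2) (f := fun y : Fin 5 → ℝ => (y a, y b))
    EE_cont (by fun_prop)

theorem emap_cont : Continuous emap := by
  apply Continuous.subtype_mk
  apply continuous_pi
  intro i
  fin_cases i
  · exact EE_comp 0 1
  · exact EE_comp 2 3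
  · exact EE_comp 2 4

theorem ee_apply (j k : Fin 5) : ee j k = if k = j then 1 else 0 := by
  unfold ee
  rw [Pi.single_apply]

theorem EE_shift (u v : ℝ) (p q : Prop) [Decidable p] [Decidable q] :
    EE (u + if p then 1 else 0) (v + if q then 1 else 0) = EE u v := by
  split_ifs <;> simp [EE_left, EE_right]

theorem emap_ee (y : Fin 5 → ℝ) (j : Fin 5) : emap (y + ee j) = emap y := by
  apply Subtype.ext
  funext i
  have h (k : Fin 5) : (y + ee j) k = y k + if k = j then 1 else 0 := by
    rw [Pi.add_apply, ee_apply]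
  have h2 (a b : Fin 5) : EE ((y + ee j) a) ((y + ee j) b) = EE (y a) (y b) := by
    rw [h, h, EE_shift]
  fin_cases i
  · exact h2 0 1
  · exact h2 2 3
  · exact h2 2 4

theorem emap_nat (y : Fin 5 → ℝ) (j : Fin 5) (n : ℕ) : emap (y + (n : ℝ) • ee j) = emap y := by
  induction n with
  | zero => simp
  | succ n ih =>
    have : y + ((n + 1 : ℕ) : ℝ) • ee j = (y + (n : ℝ) • ee j) + ee j := by
      push_cast
      rw [add_smul, one_smul, add_assoc]
    rw [this, emap_ee, ih]

theorem emap_int1 (y : Fin 5 → ℝ) (j : Fin 5) (n : ℤ) : emap (y + (n : ℝ) • ee j) = emap y := by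
  obtain ⟨m, rfl | rfl⟩ := n.eq_nat_or_neg
  · exact_mod_cast emap_nat y j m
  · have := emap_nat (y + ((-(m : ℤ) : ℤ) : ℝ) • ee j) j m
    rw [← this]
    congr 1
    push_cast
    rw [add_assoc, ← add_smul]
    simp

theorem emap_int (y : Fin 5 → ℝ) (k : Fin 5 → ℤ) : emap (fun j => y j + k j) = emap y := by
  have : (fun j => y j + (k j : ℝ)) = y + (k 0 : ℝ) • ee 0 + (k 1 : ℝ) • ee 1 + (k 2 : ℝ) • ee 2 +
      (k 3 : ℝ) • ee 3 + (k 4 : ℝ) • ee 4 := by
    funext j
    simp only [Pi.add_apply, Pi.smul_apply, ee_apply, smul_eq_mul]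
    fin_cases j <;> simp
  rw [this]
  simp only [emap_int1]

theorem range_emap : IsCompact (range emap) := by
  have : range emap = emap '' Icc 0 1 := by
    apply Subset.antisymm
    · rintro _ ⟨y, rfl⟩
      refine ⟨fun j => Int.fract (y j), ⟨fun j => Int.fract_nonneg _,
        fun j => (Int.fract_lt_one _).le⟩, ?_⟩
      rw [← emap_int (fun j => Int.fract (y j)) (fun j => ⌊y j⌋)]
      congr 1
      funext j
      exact Int.fract_add_floor (y j)
    · rintro _ ⟨y, -, rfl⟩
      exact ⟨y, rfl⟩
  rw [this]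
  exact isCompact_Icc.image emap_cont

/-- No continuous flow on a finite dimensional space has the product of three copies of
`ℝ³` minus the origin as orbit space. -/
theorem no_flow {d : ℕ} {φ : ℝ → EuclideanSpace ℝ (Fin d) → EuclideanSpace ℝ (Fin d)}
    {f : EuclideanSpace ℝ (Fin d) → NN} (h : GFlow φ f) (hsurj : Function.Surjective f) : False := by
  classical
  have hg : ∀ i : Fin 3, Continuous (fun x => (f x).1 i) := fun i =>
    (continuous_apply i).comp (continuous_subtype_val.comp h.fcont)
  choose G hGc hG using fun i => exists_lift (hg i) (fun x => (f x).2 i)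
  let K : Set NN := {m | m ∈ range emap ∧ ¬ IsCompact (f ⁻¹' {m})}
  have hKc : IsCompact K := by
    apply range_emap.of_isClosed_subset _ (fun m hm => hm.1)
    rw [← isOpen_compl_iff, isOpen_iff_mem_nhds]
    intro m hm
    by_cases hmT : m ∈ range emap
    · have hmc : IsCompact (f ⁻¹' {m}) := by
        by_contra hcon
        exact hm ⟨hmT, hcon⟩
      obtain ⟨x, rfl⟩ := hsurj m
      filter_upwards [h.compact_nhds hmc] with n hn hn'
      exact hn'.2 hn
    · filter_upwards [range_emap.isClosed.isOpen_compl.mem_nhds hmT] with n hn hn'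
      exact hn hn'.1
  obtain ⟨σ, hσc, hσ⟩ := h.exists_section hKc (fun m _ => hsurj m) (fun m hm => hm.2)
  let C : Set (Fin 5 → ℝ) := {y | emap y ∈ K}
  -- fibres over points of the torus
  have hfib : ∀ x y, f x = emap y → hopf (G 0 x) = EE (y 0) (y 1) ∧
      hopf (G 1 x) = EE (y 2) (y 3) ∧ hopf (G 2 x) = EE (y 2) (y 4) := by
    intro x y hxy
    refine ⟨?_, ?_, ?_⟩
    · rw [hG 0 x, hxy]; rfl
    · rw [hG 1 x, hxy]; rfl
    · rw [hG 2 x, hxy]; rfl
  have hσf : ∀ y ∈ C, f (σ (emap y)) = emap y := fun y hy => hσ _ hy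
  refine Pool.Agent.H790.FQ.taskTorus Pool.Agent.H672R3.FQ.taskStokes C
    (hKc.isClosed.preimage emap_cont) ?_
    (fun y => DD (G 0 (σ (emap y))) (y 0) (y 1)) ?_ ?_ ?_
  · intro y j
    simp only [C, mem_ofPred_eq, emap_ee]
  · intro y hy
    have h1 : ContinuousWithinAt (fun y : Fin 5 → ℝ => (G 0 (σ (emap y)), (y 0, y 1))) C y := by
      apply ContinuousWithinAt.prodMk
      · exact (hGc 0).continuousAt.comp_continuousWithinAt
          ((hσc.comp emap_cont.continuousOn (fun y hy => hy)) y hy)
      · exact Continuous.continuousWithinAt (by fun_prop)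
    exact ContinuousAt.comp_continuousWithinAt
      (g := fun x : (ℂ × ℂ) × (ℝ × ℝ) => DD x.1 x.2.1 x.2.2)
      (f := fun y : Fin 5 → ℝ => (G 0 (σ (emap y)), (y 0, y 1)))
      (DD_contAt (hfib _ _ (hσf y hy)).1) h1
  · intro y hy j
    have h0 := (hfib _ _ (hσf y hy)).1
    simp only [emap_ee, Pi.add_apply, ee_apply]
    by_cases hj0 : j = 0
    · subst hj0
      simp only [if_true, show (1 : Fin 5) ≠ 0 by decide, show (0 : Fin 5) ≠ 1 by decide,
        if_false, add_zero]
      exact DD_left _ _ _
    · by_cases hj1 : j = 1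
      · subst hj1
        simp only [if_true, show (0 : Fin 5) ≠ 1 by decide, if_false, add_zero]
        exact DD_right h0
      · simp only [Ne.symm hj0, Ne.symm hj1, hj1, if_false, add_zero]
  · intro δ hδ
    obtain ⟨B₀, B₁, g₀, g₁, r, p1, p2, p3, p4, p5, p6, p7⟩ := bdata h emap_cont emap_ee
      (fun y => hsurj _) (O := univ) isOpen_univ
      (D₁ := fun p => DD (G 2 p.1) (p.2 2) (p.2 4)) (D₂ := fun p => DD (G 1 p.1) (p.2 2) (p.2 3))
      (by
        rintro p ⟨-, hp⟩
        apply ContinuousAt.continuousWithinAt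
        exact ContinuousAt.comp (g := fun x : (ℂ × ℂ) × (ℝ × ℝ) => DD x.1 x.2.1 x.2.2)
          (f := fun p : EuclideanSpace ℝ (Fin d) × (Fin 5 → ℝ) => (G 2 p.1, (p.2 2, p.2 4)))
          (DD_contAt (hfib _ _ hp).2.2)
          (Continuous.continuousAt (((hGc 2).comp continuous_fst).prodMk (by fun_prop))))
      (by
        rintro p ⟨-, hp⟩
        apply ContinuousAt.continuousWithinAt
        exact ContinuousAt.comp (g := fun x : (ℂ × ℂ) × (ℝ × ℝ) => DD x.1 x.2.1 x.2.2)
          (f := fun p : EuclideanSpace ℝ (Fin d) × (Fin 5 → ℝ) => (G 1 p.1, (p.2 2, p.2 3)))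
          (DD_contAt (hfib _ _ hp).2.1)
          (Continuous.continuousAt (((hGc 1).comp continuous_fst).prodMk (by fun_prop))))
      (by
        intro x y _ hxy j
        have h0 := (hfib _ _ hxy).2.2
        simp only [Pi.add_apply, ee_apply]
        by_cases hj0 : j = 2
        · subst hj0
          simp only [if_true, show (4 : Fin 5) ≠ 2 by decide, show (2 : Fin 5) ≠ 4 by decide,
            if_false, add_zero]
          rw [DD_left]
          simp
        · by_cases hj1 : j = 4
          · subst hj1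
            simp only [if_true, show (2 : Fin 5) ≠ 4 by decide, if_false, add_zero]
            exact DD_right h0
          · simp only [Ne.symm hj0, Ne.symm hj1, hj1, if_false, add_zero]
            simp)
      (by
        intro x y _ hxy j
        have h0 := (hfib _ _ hxy).2.1
        simp only [Pi.add_apply, ee_apply]
        by_cases hj0 : j = 2
        · subst hj0
          simp only [if_true, show (3 : Fin 5) ≠ 2 by decide, show (2 : Fin 5) ≠ 3 by decide,
            if_false, add_zero]
          rw [DD_left]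
          simp
        · by_cases hj1 : j = 3
          · subst hj1
            simp only [if_true, show (2 : Fin 5) ≠ 3 by decide, if_false, add_zero]
            exact DD_right h0
          · simp only [Ne.symm hj0, Ne.symm hj1, hj1, if_false, add_zero]
            simp)
      (K := {y | IsCompact (f ⁻¹' {emap y})}) (fun y hy => ⟨hy, subset_univ _⟩)
    refine ⟨B₀, B₁, g₀, g₁, r, p1, p2, p3, p4, p5, ?_, p7⟩
    intro y hy
    apply p6
    by_contra hcon
    have hyC : y ∈ C := ⟨⟨y, rfl⟩, hcon⟩
    have := hy y hyC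
    rw [dist_self] at this
    linarith

end Pool.Agent.TH643.FQ
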